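import Pool.Agent.H919R3.L2.Op

set_option autoImplicit false
set_option linter.unusedSectionVars false

open scoped InnerProductSpace InnerProduct ENNReal
open Filter Topology

namespace Pool.Agent.H919R3.L2

section
variable {G : Type} [Group G]

/-- pairing of a finitely supported function with a function -/
noncomputable def pair (v : G →₀ ℤ) (φ : G → ℂ) : ℂ := v.sum fun p n => (n : ℂ) * φ p

theorem pair_add (v w : G →₀ ℤ) (φ : G → ℂ) : pair (v + w) φ = pair v φ + pair w φ := by
  classical
  unfold pair
  rw [Finsupp.sum_add_index (by simp) (by intro a _ b c; push_cast; ring)]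

theorem pair_zero (φ : G → ℂ) : pair 0 φ = 0 := by simp [pair]

theorem pair_mapDomain (v : G →₀ ℤ) (g : G) (φ : G → ℂ) :
    pair (v.mapDomain (g * ·)) φ = pair v (fun p => φ (g * p)) := by
  unfold pair
  rw [Finsupp.sum_mapDomain_index (by simp) (by intro a b c; push_cast; ring)]

theorem pair_single (φ : G → ℂ) (g : G) : pair (Finsupp.single g 1) φ = φ g := by
  unfold pair
  rw [Finsupp.sum_single_index (by simp)]; simp

theorem pair_addφ (v : G →₀ ℤ) (φ ψ : G → ℂ) :
    pair v (fun p => φ p + ψ p) = pair v φ + pair v ψ := by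
  unfold pair Finsupp.sum
  rw [← Finset.sum_add_distrib]
  exact Finset.sum_congr rfl fun x _ => by ring

theorem pair_smulφ (v : G →₀ ℤ) (c : ℂ) (φ : G → ℂ) :
    pair v (fun p => c * φ p) = c * pair v φ := by
  unfold pair Finsupp.sum
  rw [Finset.mul_sum]
  exact Finset.sum_congr rfl fun x _ => by ring

/-- `D` is a derivation `G → ℤ[G]`. -/
def IsDer (D : G → (G →₀ ℤ)) : Prop := ∀ g h, D (g * h) = D g + (D h).mapDomain (g * ·)

variable {D : G → (G →₀ ℤ)}

theorem IsDer.one (hD : IsDer D) : D 1 = 0 := by
  have := hD 1 1
  simp only [one_mul] at this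
  have h2 : (D 1).mapDomain (fun x : G => x) = D 1 := Finsupp.mapDomain_id
  rw [h2] at this
  simpa using this

theorem IsDer.pow (hD : IsDer D) (a : G) (ha : D a = 0) (k : ℕ) : D (a ^ k) = 0 := by
  induction k with
  | zero => simpa using hD.one
  | succ k ih => rw [pow_succ, hD, ih, ha]; simp

theorem IsDer.mul_pow (hD : IsDer D) (g a : G) (ha : D a = 0) (k : ℕ) : D (g * a ^ k) = D g := by
  rw [hD, hD.pow a ha]; simp

theorem IsDer.pair_mul (hD : IsDer D) (φ : G → ℂ) (g h : G) :
    pair (D (g * h)) φ = pair (D g) φ + pair (D h) (fun p => φ (g * p)) := by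
  rw [hD, pair_add, pair_mapDomain]

theorem continuous_pair (v : G →₀ ℤ) {Z : Type} [TopologicalSpace Z] (φ : Z → G → ℂ)
    (hφ : ∀ p, Continuous fun z => φ z p) : Continuous fun z => pair v (φ z) := by
  unfold pair Finsupp.sum
  exact continuous_finsetSum _ fun p _ => (hφ p).const_mul _ |>.congr (fun _ => rfl)

variable {H : Type} [Group H]

/-- The lower bound for the first `ℓ²`-Betti number. -/
theorem lower (ι : H →* G) (hι : Function.Injective ι) (S : Finset H) (hfin : ι.range.FiniteIndex) (hS : Subgroup.closure (S : Set H) = ⊤)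
    (hD : IsDer D) (a x : G) (ha : D a = 0) (ha1 : ∀ k : ℕ, 0 < k → a ^ k ≠ 1)
    (hx : D x = Finsupp.single 1 1) : (ι.range.index : ℝ) ≤ b1l2 S := by
  classical
  obtain ⟨T, hT, -⟩ := Subgroup.exists_isComplement_right ι.range 1
  have hTfin : T.Finite := hT.finite_right
  have : Fintype T := hTfin.fintype
  have hcard : Fintype.card T = ι.range.index := by
    rw [← Nat.card_eq_fintype_card]; exact hT.card_right
  let ee : H ≃* ι.range := MonoidHom.ofInjective hι
  let hh : G → H := fun g => ee.symm (hT.equiv g).1
  let tt : G → T := fun g => (hT.equiv g).2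
  have hh_mul : ∀ (k : H) (g : G), hh (ι k * g) = k * hh g := by
    intro k g
    have h1 := hT.equiv_mul_left (⟨ι k, k, rfl⟩ : ι.range) g
    have h2 : (hT.equiv (ι k * g)).1 = (⟨ι k, k, rfl⟩ : ι.range) * (hT.equiv g).1 := by
      have := congrArg Prod.fst h1
      exact this
    change ee.symm (hT.equiv (ι k * g)).1 = k * ee.symm (hT.equiv g).1
    rw [h2, map_mul]
    congr 1
    rw [MulEquiv.symm_apply_eq]
    rfl
  have tt_mul : ∀ (k : H) (g : G), tt (ι k * g) = tt g := by
    intro k g
    have h1 := hT.equiv_mul_left (⟨ι k, k, rfl⟩ : ι.range) g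
    have := congrArg Prod.snd h1
    exact this
  have hinjG : Function.Injective fun g : G => (hh g, tt g) := by
    intro g g' hgg
    simp only [Prod.mk.injEq] at hgg
    apply hT.equiv.injective
    refine Prod.ext (ee.symm.injective hgg.1) hgg.2
  have hsurjG : Function.Surjective fun g : G => (hh g, tt g) := by
    rintro ⟨h, t⟩
    refine ⟨hT.equiv.symm (ee h, t), ?_⟩
    have h1 := hT.equiv.apply_symm_apply (ee h, t)
    refine Prod.ext ?_ ?_
    · change ee.symm (hT.equiv (hT.equiv.symm (ee h, t))).1 = h
      rw [congrArg Prod.fst h1]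
      exact ee.symm_apply_apply h
    · change (hT.equiv (hT.equiv.symm (ee h, t))).2 = t
      rw [congrArg Prod.snd h1]
  -- the function on `G` attached to an element of `ℓ²(H × T)`
  let hat : (H × Option T → ℂ) → G → ℂ := fun f g => f (hh g, some (tt g))
  let L : (H × Option T → ℂ) →ₗ[ℂ] (H × S → ℂ) :=
    { toFun := fun f y => pair (D (ι y.2)) (fun p => hat f (ι y.1 * p))
        + (f (y.1 * (y.2 : H), none) - f (y.1, none))
      map_add' := by
        intro f g
        ext y
        have : (fun p => hat (f + g) (ι y.1 * p))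
          = fun p => hat f (ι y.1 * p) + hat g (ι y.1 * p) := rfl
        simp only [this, pair_addφ, Pi.add_apply]
        ring
      map_smul' := by
        intro c f
        ext y
        have : (fun p => hat (c • f) (ι y.1 * p)) = fun p => c * hat f (ι y.1 * p) := rfl
        simp only [this, pair_smulφ, Pi.smul_apply, smul_eq_mul, RingHom.id_apply]
        ring }
  obtain ⟨T1, hT1⟩ := exists_op L (by
    intro y
    refine Continuous.add ?_ ?_
    · exact continuous_pair _ _ fun p => continuous_apply _
    · exact (continuous_apply _).sub (continuous_apply _)) (by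
    intro f
    apply memlp_prod
    intro s
    refine Memℓp.add ?_ (Memℓp.sub ?_ ?_)
    · change Memℓp (fun h : H => pair (D (ι s)) (fun p => hat (fun x => f x) (ι h * p))) 2
      unfold pair Finsupp.sum
      apply memlp_finsum
      intro p _
      apply memlp_const_mul
      refine memlp_comp_inj (fun h : H => (hh (ι h * p), some (tt (ι h * p)))) ?_ _ f.2
      intro h h' hhh
      simp only [Prod.mk.injEq, Option.some.injEq] at hhh
      have := hinjG (a₁ := ι h * p) (a₂ := ι h' * p) (Prod.ext hhh.1 hhh.2)
      exact hι (mul_right_cancel this)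
    · exact memlp_comp_inj (fun h : H => (h * (s : H), none)) (by intro a b hab; simpa using hab)
        _ f.2
    · exact memlp_comp_inj (fun h : H => (h, none)) (by intro a b hab; simpa using hab)
        _ f.2)
  have hT1' : ∀ (f : EE H (Option T)) (h : H) (s : S), T1 f (h, s)
      = pair (D (ι s)) (fun p => hat (fun x => f x) (ι h * p))
        + (f (h * (s : H), none) - f (h, none)) := fun f h s => hT1 f (h, s)
  have heqv : Eqv T1 := by
    intro k f
    ext ⟨h, s⟩
    rw [tr_apply, hT1', hT1', tr_apply, tr_apply, mul_assoc]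
    congr 2
    ext p
    change (tr k f) (hh (ι h * p), some (tt (ι h * p))) = f (hh (ι (k⁻¹ * h) * p), _)
    rw [tr_apply, map_mul, mul_assoc, hh_mul k⁻¹, tt_mul k⁻¹]
  -- potentials
  let Fo : EE H (Option T) → G → ℂ := fun f g => pair (D g) (hat fun x => f x)
  have hgrad : ∀ (f : EE H (Option T)) (h : H) (s : S), T1 f (h, s)
      = (Fo f (ι (h * s)) + f (h * s, none)) - (Fo f (ι h) + f (h, none)) := by
    intro f h s
    rw [hT1']
    simp only [Fo]
    rw [map_mul, hD.pair_mul]
    ring
  have hinj : Function.Injective T1 := by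
    rw [injective_iff_map_eq_zero]
    intro f hf
    have hW1 : ∀ (h : H) (s : H), s ∈ S → Fo f (ι (h * s)) + f (h * s, none)
        = Fo f (ι h) + f (h, none) := by
      intro h s hs
      have h1 := hgrad f h ⟨s, hs⟩
      rw [hf] at h1
      have h2 : (0 : EE H S) (h, ⟨s, hs⟩) = 0 := rfl
      rw [h2] at h1
      exact (sub_eq_zero.1 h1.symm)
    have hW2 : ∀ s : H, ∀ h : H, Fo f (ι (h * s)) + f (h * s, none)
        = Fo f (ι h) + f (h, none) := by
      intro s
      have hs : s ∈ Subgroup.closure (S : Set H) := by rw [hS]; trivial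
      induction hs using Subgroup.closure_induction with
      | mem s hs => exact fun h => hW1 h s hs
      | one => intro h; rw [mul_one]
      | mul s t _ _ ihs iht => intro h; rw [← mul_assoc, iht, ihs]
      | inv s _ ih =>
        intro h
        have := ih (h * s⁻¹)
        rw [inv_mul_cancel_right] at this
        exact this.symm
    have hFone : Fo f 1 = 0 := by
      simp only [Fo]; rw [hD.one, pair_zero]
    -- invariance under right multiplication by powers of `a`
    have hFa : ∀ (g : G) (k : ℕ), Fo f (g * a ^ k) = Fo f g := by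
      intro g k
      simp only [Fo]; rw [hD.mul_pow g a ha]
    have ainj : Function.Injective fun k : ℕ => a ^ k := by
      intro i j hij
      simp only at hij
      by_contra hne
      rcases lt_or_gt_of_ne hne with h | h
      · have h1 : a ^ (j - i) = 1 := by
          have : a ^ j = a ^ i * a ^ (j - i) := by rw [← pow_add]; congr 1; omega
          rw [this] at hij
          exact (mul_eq_left.1 hij.symm)
        exact ha1 _ (by omega) h1
      · have h1 : a ^ (i - j) = 1 := by
          have : a ^ i = a ^ j * a ^ (i - j) := by rw [← pow_add]; congr 1; omega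
          rw [this] at hij
          exact (mul_eq_left.1 hij)
        exact ha1 _ (by omega) h1
    have hu : ∀ h : H, f (h, none) = 0 := by
      intro h
      obtain ⟨k, hk, -, hka⟩ := Subgroup.exists_pow_mem_of_index_ne_zero hfin.index_ne_zero a
      obtain ⟨b, hb⟩ := hka
      have h1 : ∀ j : ℕ, f (h * b ^ j, none) = f (h, none) := by
        intro j
        have h2 := hW2 (b ^ j) h
        have h3 : Fo f (ι (h * b ^ j)) = Fo f (ι h) := by
          rw [map_mul, map_pow, hb, ← pow_mul, hFa]
        rw [h3] at h2
        exact add_left_cancel h2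
      have h4 : Tendsto (fun j : ℕ => f (h * b ^ j, none)) atTop (𝓝 0) := by
        refine tendsto_zero_of_inj (fun x => f x) f.2 (fun j : ℕ => (h * b ^ j, none)) ?_
        intro i j hij
        simp only [Prod.mk.injEq, mul_right_inj, and_true] at hij
        have h5 : a ^ (k * i) = a ^ (k * j) := by
          rw [pow_mul, pow_mul, ← hb, ← map_pow, ← map_pow, hij]
        exact Nat.eq_of_mul_eq_mul_left hk (ainj h5)
      simp only [h1] at h4
      exact tendsto_nhds_unique tendsto_const_nhds h4
    have hFH : ∀ h : H, Fo f (ι h) = 0 := by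
      intro h
      have h1 := hW2 h 1
      rw [one_mul, hu, hu, add_zero, add_zero, map_one, hFone] at h1
      exact h1
    have hFG : ∀ g : G, Fo f g = 0 := by
      intro g
      obtain ⟨k, hk, -, hka⟩ := Subgroup.exists_pow_mem_of_index_ne_zero hfin.index_ne_zero
        (g * a * g⁻¹)
      obtain ⟨b, hb⟩ := hka
      have hb2 : ι b = g * a ^ k * g⁻¹ := by rw [hb, conj_pow]
      have hb3 : ∀ j : ℕ, ι (b ^ j) = g * a ^ (k * j) * g⁻¹ := by
        intro j; rw [map_pow, hb2, conj_pow, pow_mul]
      have h1 : ∀ j : ℕ, Fo f g = pair (D g) (fun p => hat (fun x => f x) (ι (b ^ j) * p)) := by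
        intro j
        have h2 : Fo f (ι (b ^ j) * g) = Fo f g := by
          rw [hb3, inv_mul_cancel_right, hFa]
        have h3 : Fo f (ι (b ^ j) * g) = Fo f (ι (b ^ j))
            + pair (D g) (fun p => hat (fun x => f x) (ι (b ^ j) * p)) := by
          simp only [Fo]; rw [hD.pair_mul]
        rw [hFH, zero_add, h2] at h3
        exact h3
      have h10 : ∀ p : G, Tendsto (fun j : ℕ => hat (fun x => f x) (ι (b ^ j) * p)) atTop
          (𝓝 0) := by
        intro p
        refine tendsto_zero_of_inj (fun x => f x) f.2
          (fun j : ℕ => (hh (ι (b ^ j) * p), some (tt (ι (b ^ j) * p)))) ?_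
        intro i j hij
        simp only [Prod.mk.injEq, Option.some.injEq] at hij
        have h5 := hinjG (a₁ := ι (b ^ i) * p) (a₂ := ι (b ^ j) * p) (Prod.ext hij.1 hij.2)
        have h6 := mul_right_cancel h5
        rw [hb3, hb3] at h6
        have h7 := mul_left_cancel (mul_right_cancel h6)
        exact Nat.eq_of_mul_eq_mul_left hk (ainj h7)
      have h4 : Tendsto (fun j : ℕ => pair (D g) (fun p => hat (fun x => f x) (ι (b ^ j) * p)))
          atTop (𝓝 0) := by
        have h9 : Tendsto (fun j : ℕ => ∑ p ∈ (D g).support,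
            (((D g) p : ℤ) : ℂ) * hat (fun x => f x) (ι (b ^ j) * p)) atTop
            (𝓝 (∑ p ∈ (D g).support, (((D g) p : ℤ) : ℂ) * 0)) := by
          apply tendsto_finsetSum
          intro p _
          apply Tendsto.const_mul
          exact h10 p
        simp only [mul_zero, Finset.sum_const_zero] at h9
        exact h9
      have h8 : Tendsto (fun _ : ℕ => Fo f g) atTop (𝓝 0) := by
        refine h4.congr fun j => (h1 j).symm
      exact tendsto_nhds_unique tendsto_const_nhds h8
    have hφ : ∀ g : G, hat (fun x => f x) g = 0 := by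
      intro g
      have h1 : Fo f (g * x) = Fo f g + hat (fun x => f x) g := by
        simp only [Fo]; rw [hD.pair_mul, hx, pair_single, mul_one]
      rw [hFG, hFG, zero_add] at h1
      exact h1.symm
    ext ⟨h, o⟩
    rcases o with _ | t
    · exact hu h
    · obtain ⟨g, hg⟩ := hsurjG (h, t)
      simp only [Prod.mk.injEq] at hg
      have := hφ g
      simp only [hat, hg.1, hg.2] at this
      exact this
  have hfinal := b1l2_ge S T1 heqv hinj (fun f => ⟨fun h => Fo f (ι h) + f (h, none),
    fun h s => hgrad f h s⟩)
  rw [Fintype.card_option, hcard] at hfinal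
  push_cast at hfinal
  linarith

end

end Pool.Agent.H919R3.L2
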