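import Pool.Agent.H919R3.L2.Defs

set_option autoImplicit false
set_option linter.unusedSectionVars false

open scoped InnerProductSpace InnerProduct ENNReal
open Filter Topology

namespace Pool.Agent.H919R3.L2

theorem memlp_comp_inj {X Y : Type} (i : X → Y) (hi : Function.Injective i) (f : Y → ℂ)
    (hf : Memℓp f 2) : Memℓp (fun x => f (i x)) 2 := by
  rw [memlp_two_iff] at hf ⊢
  exact hf.comp_injective hi

theorem memlp_prod {X J : Type} [Fintype J] (g : X × J → ℂ)
    (hg : ∀ j, Memℓp (fun x => g (x, j)) 2) : Memℓp g 2 := by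
  rw [memlp_two_iff]
  have h1 : ∀ j, Summable fun x => ‖g (x, j)‖ ^ 2 := fun j => (memlp_two_iff _).1 (hg j)
  rw [← Equiv.summable_iff (Equiv.prodComm J X)]
  have h2 : Summable fun p : J × X => ‖g (p.2, p.1)‖ ^ 2 := by
    rw [summable_prod_of_nonneg (fun p => by positivity)]
    exact ⟨fun j => h1 j, Summable.of_finite⟩
  exact h2

theorem memlp_finsum {X K : Type} (s : Finset K) (g : K → X → ℂ)
    (hg : ∀ k ∈ s, Memℓp (g k) 2) : Memℓp (fun x => ∑ k ∈ s, g k x) 2 := by
  classical
  induction s using Finset.induction_on with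
  | empty => simp only [Finset.sum_empty]; exact zero_memℓp
  | insert a s ha ih =>
    simp only [Finset.sum_insert ha]
    exact (hg a (Finset.mem_insert_self a s)).add
      (ih fun k hk => hg k (Finset.mem_insert_of_mem hk))

theorem memlp_const_mul {X : Type} (c : ℂ) (g : X → ℂ) (hg : Memℓp g 2) :
    Memℓp (fun x => c * g x) 2 := by
  have := hg.const_smul c
  exact this

theorem apply_tendsto {X : Type} (u : ℕ → lp (fun _ : X => ℂ) 2) (f : lp (fun _ : X => ℂ) 2)
    (h : Tendsto u atTop (𝓝 f)) (x : X) : Tendsto (fun n => u n x) atTop (𝓝 (f x)) := by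
  rw [tendsto_iff_norm_sub_tendsto_zero] at h ⊢
  refine squeeze_zero (fun _ => norm_nonneg _) (fun n => ?_) h
  have := lp.norm_apply_le_norm (p := 2) (by norm_num) (u n - f) x
  simpa using this

theorem exists_op {X Y : Type} (L : (X → ℂ) →ₗ[ℂ] (Y → ℂ))
    (hcont : ∀ y, Continuous fun f : X → ℂ => L f y)
    (hmem : ∀ f : lp (fun _ : X => ℂ) 2, Memℓp (L (fun x => f x)) 2) :
    ∃ T : lp (fun _ : X => ℂ) 2 →L[ℂ] lp (fun _ : Y => ℂ) 2,
      ∀ f y, T f y = L (fun x => f x) y := by
  let T0 : lp (fun _ : X => ℂ) 2 →ₗ[ℂ] lp (fun _ : Y => ℂ) 2 :=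
    { toFun := fun f => ⟨L (fun x => f x), hmem f⟩
      map_add' := by
        intro f g
        ext y
        change L (fun x => (f + g) x) y = L (fun x => f x) y + L (fun x => g x) y
        have : (fun x => (f + g) x) = (fun x => f x) + (fun x => g x) := by
          ext x; simp
        rw [this, map_add]; rfl
      map_smul' := by
        intro c f
        ext y
        change L (fun x => (c • f) x) y = c • L (fun x => f x) y
        have : (fun x => (c • f) x) = c • (fun x => f x) := by
          ext x; simp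
        rw [this, map_smul]; rfl }
  have hT0 : ∀ f y, T0 f y = L (fun x => f x) y := fun f y => rfl
  refine ⟨ContinuousLinearMap.ofSeqClosedGraph (g := T0) ?_, ?_⟩
  · intro u f g hu hg
    ext y
    have h1 : Tendsto (fun n => T0 (u n) y) atTop (𝓝 (g y)) := apply_tendsto _ _ hg y
    have h2 : Tendsto (fun n => T0 (u n) y) atTop (𝓝 (T0 f y)) := by
      have h3 : Tendsto (fun n => (fun x => u n x : X → ℂ)) atTop (𝓝 (fun x => f x)) := by
        rw [tendsto_pi_nhds]
        exact fun x => apply_tendsto _ _ hu x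
      exact ((hcont y).tendsto _).comp h3
    exact tendsto_nhds_unique h1 h2
  · intro f y
    rfl

/-- if `f ∈ ℓ²` then `f` tends to zero along injective sequences -/
theorem tendsto_zero_of_inj {X : Type} (f : X → ℂ) (hf : Memℓp f 2) (i : ℕ → X)
    (hi : Function.Injective i) : Tendsto (fun n => f (i n)) atTop (𝓝 0) := by
  have h1 := (memlp_two_iff f).1 hf
  have h2 : Summable fun n => ‖f (i n)‖ ^ 2 := h1.comp_injective hi
  have h3 := h2.tendsto_atTop_zero
  rw [tendsto_zero_iff_norm_tendsto_zero]
  have h4 : Tendsto (fun n => Real.sqrt (‖f (i n)‖ ^ 2)) atTop (𝓝 (Real.sqrt 0)) :=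
    (Real.continuous_sqrt.tendsto 0).comp h3
  simpa using h4

section
variable {H : Type} [Group H] (S : Finset H)

/-- gradient as a linear map on functions -/
noncomputable def gradL : (H × Unit → ℂ) →ₗ[ℂ] (H × S → ℂ) where
  toFun f := fun x => f (x.1 * (x.2 : H), ()) - f (x.1, ())
  map_add' := by
    intro f g; ext x; simp only [Pi.add_apply]; ring
  map_smul' := by
    intro c f; ext x; simp only [Pi.smul_apply, smul_eq_mul, RingHom.id_apply]; ring

theorem exists_grad : ∃ T : EE H Unit →L[ℂ] EE H S, ∀ f h (s : S),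
    T f (h, s) = f (h * (s : H), ()) - f (h, ()) := by
  obtain ⟨T, hT⟩ := exists_op (gradL S) (by
    intro y
    exact (continuous_apply (y.1 * (y.2 : H), ())).sub (continuous_apply (y.1, ()))) (by
    intro f
    apply memlp_prod
    intro s
    refine Memℓp.sub ?_ ?_
    · exact memlp_comp_inj (fun h : H => (h * (s : H), ())) (by intro a b hab; simpa using hab)
        _ f.2
    · exact memlp_comp_inj (fun h : H => (h, ())) (by intro a b hab; simpa using hab)
        _ f.2)
  exact ⟨T, fun f h s => hT f (h, s)⟩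

/-- the coboundary operator `ℓ²(H) → ℓ²(H × S)` -/
noncomputable def T0 : EE H Unit →L[ℂ] EE H S := (exists_grad S).choose

theorem T0_apply (f : EE H Unit) (h : H) (s : S) :
    T0 S f (h, s) = f (h * (s : H), ()) - f (h, ()) := (exists_grad S).choose_spec f h s

theorem T0_eqv : Eqv (T0 S) := by
  intro k f
  ext ⟨h, s⟩
  rw [tr_apply, T0_apply, T0_apply, tr_apply, tr_apply, mul_assoc]

theorem T0_dl (h : H) : T0 S (dl (h, ())) = ∑ s : S, (dl (h * (s : H)⁻¹, s) - dl (h, s)) := by
  classical
  ext ⟨x, t⟩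
  rw [T0_apply]
  simp only [lp.coeFn_sum, lp.coeFn_sub, Finset.sum_apply, Pi.sub_apply]
  rw [Finset.sum_eq_single t]
  · congr 1
    · by_cases hx : x * (t : H) = h
      · have : x = h * (t : H)⁻¹ := by rw [← hx]; simp
        rw [hx, this, dl_apply_self, dl_apply_self]
      · rw [dl_apply_ne, dl_apply_ne]
        · intro hh; apply hx
          simp only [Prod.mk.injEq, and_true] at hh
          rw [hh]; simp
        · intro hh; apply hx
          simpa using hh
    · by_cases hx : x = h
      · rw [hx, dl_apply_self, dl_apply_self]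
      · rw [dl_apply_ne, dl_apply_ne]
        · intro hh; exact hx (by simpa using hh)
        · intro hh; exact hx (by simpa using hh)
  · intro b _ hb
    rw [dl_apply_ne, dl_apply_ne, sub_zero]
    · intro hh; exact hb (by simpa using (congrArg Prod.snd hh).symm)
    · intro hh; exact hb (by simpa using (congrArg Prod.snd hh).symm)
  · intro hh; exact absurd (Finset.mem_univ t) hh

theorem T0_dl_inner (h : H) (f : EE H S) :
    ⟪T0 S (dl (h, ())), f⟫_ℂ = bdry S (fun x => f x) h := by
  rw [T0_dl, sum_inner]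
  unfold bdry
  refine Finset.sum_congr rfl fun s _ => ?_
  rw [inner_sub_left, inner_dl_left, inner_dl_left]

theorem adj_T0_apply (f : EE H S) (h : H) :
    ContinuousLinearMap.adjoint (T0 S) f (h, ()) = bdry S (fun x => f x) h := by
  rw [← inner_dl_left, ContinuousLinearMap.adjoint_inner_right, T0_dl_inner]

theorem mem_cycles_iff (f : EE H S) :
    f ∈ cycles S ↔ ContinuousLinearMap.adjoint (T0 S) f = 0 := by
  constructor
  · intro hf
    ext ⟨h, u⟩
    have := hf h
    rw [← adj_T0_apply] at this
    exact this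
  · intro hf h
    rw [← adj_T0_apply, hf]
    rfl

theorem cycles_eq : cycles S = (LinearMap.range (T0 S : EE H Unit →ₗ[ℂ] EE H S))ᗮ := by
  ext f
  rw [mem_cycles_iff, Submodule.mem_orthogonal]
  constructor
  · rintro hf _ ⟨v, rfl⟩
    have : ⟪T0 S v, f⟫_ℂ = ⟪v, ContinuousLinearMap.adjoint (T0 S) f⟫_ℂ :=
      (ContinuousLinearMap.adjoint_inner_right _ _ _).symm
    rw [hf, inner_zero_right] at this
    exact this
  · intro hf
    apply ext_inner_left ℂ
    intro v
    rw [ContinuousLinearMap.adjoint_inner_right, inner_zero_right]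
    exact hf _ ⟨v, rfl⟩

instance harm_complete : CompleteSpace (harm S) := by
  have h1 : IsClosed ((harm S : Submodule ℂ (EE H S)) : Set (EE H S)) := by
    unfold harm
    rw [Submodule.coe_inf, cycles_eq]
    exact (Submodule.isClosed_orthogonal _).inter (Submodule.isClosed_orthogonal _)
  exact h1.completeSpace_coe

/-- gradients are orthogonal to finite cycles -/
theorem grad_orth (F : H → ℂ) (g : EE H S) (hg : ∀ h (s : S), g (h, s) = F (h * s) - F h) :
    g ∈ (finCycles S)ᗮ := by
  classical
  rw [Submodule.mem_orthogonal]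
  rintro z ⟨hz, hfin⟩
  -- finite set of vertices
  let K : Set H := (Prod.fst '' (Function.support (fun x => z x))) ∪
    ((fun x : H × S => x.1 * (x.2 : H)) '' (Function.support (fun x => z x)))
  have hK : K.Finite := (hfin.image _).union (hfin.image _)
  let F' : H × Unit → ℂ := fun x => if x.1 ∈ K then F x.1 else 0
  have hF' : Memℓp F' 2 := by
    rw [memlp_two_iff]
    have hK2 : ((fun x : H => ((x, ()) : H × Unit)) '' K).Finite := hK.image _
    refine summable_of_ne_finset_zero (s := hK2.toFinset) ?_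
    rintro ⟨x, u⟩ hx
    have : x ∉ K := by
      intro hxK
      apply hx
      simp only [Set.Finite.mem_toFinset]
      exact ⟨x, hxK, rfl⟩
    simp [F', this]
  have h1 : ⟪z, T0 S ⟨F', hF'⟩⟫_ℂ = 0 := by
    rw [mem_cycles_iff] at hz
    rw [← ContinuousLinearMap.adjoint_inner_left, hz, inner_zero_left]
  rw [← h1, lp.inner_eq_tsum, lp.inner_eq_tsum]
  refine tsum_congr ?_
  rintro ⟨h, s⟩
  by_cases hx : z (h, s) = 0
  · rw [hx]; simp
  · have hk1 : h ∈ K := Or.inl ⟨(h, s), hx, rfl⟩
    have hk2 : h * (s : H) ∈ K := Or.inr ⟨(h, s), hx, rfl⟩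
    have e : T0 S ⟨F', hF'⟩ (h, s) = g (h, s) := by
      rw [T0_apply, hg]
      change F' (h * (s : H), ()) - F' (h, ()) = _
      simp [F', hk1, hk2]
    rw [e]

/-- von Neumann dimension of `harm S` -/
noncomputable def b1l2 : ℝ := tau (harm S)

theorem b1l2_ge {J : Type} [Fintype J] (T : EE H J →L[ℂ] EE H S) (hT : Eqv T)
    (hinj : Function.Injective T)
    (hgrad : ∀ f, ∃ F : H → ℂ, ∀ h (s : S), T f (h, s) = F (h * s) - F h) :
    (Fintype.card J : ℝ) - 1 ≤ b1l2 S := by
  have c1 : CompleteSpace
      ((LinearMap.range (T : EE H J →ₗ[ℂ] EE H S)).topologicalClosure : Submodule ℂ (EE H S)) :=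
    (Submodule.isClosed_topologicalClosure _).completeSpace_coe
  have c2 : CompleteSpace
      ((LinearMap.range (T0 S : EE H Unit →ₗ[ℂ] EE H S)).topologicalClosure :
        Submodule ℂ (EE H S)) :=
    (Submodule.isClosed_topologicalClosure _).completeSpace_coe
  have c3 : CompleteSpace ((finCycles S)ᗮ : Submodule ℂ (EE H S)) :=
    (Submodule.isClosed_orthogonal _).completeSpace_coe
  have h1 := card_le_tau T hT hinj _ rfl
  have h2 := tau_le_card (T0 S) (T0_eqv S) _ rfl
  have h3 : (LinearMap.range (T : EE H J →ₗ[ℂ] EE H S)).topologicalClosure ≤ (finCycles S)ᗮ := by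
    apply Submodule.topologicalClosure_minimal _ _ (Submodule.isClosed_orthogonal _)
    rintro _ ⟨f, rfl⟩
    obtain ⟨F, hF⟩ := hgrad f
    exact grad_orth S F _ hF
  have h4 : (LinearMap.range (T0 S : EE H Unit →ₗ[ℂ] EE H S)).topologicalClosure
      ≤ (finCycles S)ᗮ := by
    apply Submodule.topologicalClosure_minimal _ _ (Submodule.isClosed_orthogonal _)
    rintro _ ⟨f, rfl⟩
    exact grad_orth S (fun h => f (h, ())) _ (fun h s => T0_apply S f h s)
  have h5 := tau_mono _ _ h3
  have h6 := tau_sub _ _ (harm S) h4 (by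
    unfold harm
    rw [cycles_eq, Submodule.orthogonal_closure, inf_comm])
  simp only [Fintype.card_unit, Nat.cast_one] at h2
  unfold b1l2
  rw [h6]
  linarith

end

end Pool.Agent.H919R3.L2
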