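import Pool.Agent.H919R3.Stmt.Defs
import Pool.Agent.H919R3.L2.Op

set_option autoImplicit false
set_option linter.unusedSectionVars false

open scoped InnerProductSpace InnerProduct ENNReal

namespace Pool.Agent.H919R3.L2

open Pool.Agent.H919R3.Stmt

variable {H : Type} [Group H]

theorem norm_sq_eq {I : Type} (F : EE H I) : ‖F‖ ^ 2 = ∑' x, ‖F x‖ ^ 2 := by
  have h := lp.norm_rpow_eq_tsum (p := 2) (by norm_num) F
  simpa using h

theorem isHarmonic_of_mem (S : Finset H) (F : EE H S) (hF : F ∈ harm S) :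
    IsHarmonic S (fun x => F x) := by
  obtain ⟨hc, ho⟩ := hF
  refine ⟨(memlp_two_iff _).1 F.2, hc, ?_⟩
  intro z hz hzc
  have hzm : Memℓp z 2 := by
    rw [memlp_two_iff]
    apply summable_of_hasFiniteSupport
    refine hz.subset ?_
    intro x hx
    simp only [Function.mem_support] at hx ⊢
    intro h0
    exact hx (by rw [h0]; simp)
  let Z : EE H S := ⟨z, hzm⟩
  have hZ : Z ∈ finCycles S := ⟨hzc, hz⟩
  have h1 : ⟪Z, F⟫_ℂ = 0 := (Submodule.mem_orthogonal _ _).1 ho Z hZ
  rw [lp.inner_eq_tsum] at h1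
  rw [← h1]
  have hfs : (Function.support fun x => star (z x) * F x).Finite := by
    refine hz.subset ?_
    intro x hx
    simp only [Function.mem_support] at hx ⊢
    intro h0
    exact hx (by rw [h0]; simp)
  rw [← tsum_eq_finsum (L := SummationFilter.unconditional _) hfs]
  refine tsum_congr fun x => ?_
  rw [RCLike.inner_apply, mul_comm]
  rfl

theorem b1l2_le (S : Finset H) : b1l2 S ≤ l2Betti S := by
  unfold b1l2 tau l2Betti
  refine Finset.sum_le_sum fun s _ => ?_
  have hbdd : BddAbove {r : ℝ | ∃ f : H × S → ℂ,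
      IsHarmonic S f ∧ ∑' x, ‖f x‖ ^ 2 ≤ 1 ∧ r = ‖f (1, s)‖ ^ 2} := by
    refine ⟨1, ?_⟩
    rintro r ⟨f, hf, h1, rfl⟩
    refine le_trans ?_ h1
    exact hf.square_summable.le_tsum _ (fun _ _ => by positivity)
  set v : EE H S := (harm S).starProjection (dl ((1 : H), s)) with hv
  have hvm : v ∈ harm S := Submodule.starProjection_apply_mem _ _
  have hv1 : v (1, s) = (‖v‖ ^ 2 : ℝ) := by
    have e1 : v (1, s) = ⟪dl ((1 : H), s), v⟫_ℂ := (inner_dl_left _ _).symm
    have e2 : ⟪v, v⟫_ℂ = ⟪dl ((1 : H), s), v⟫_ℂ := by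
      conv_lhs => rw [hv]
      rw [Submodule.inner_starProjection_left_eq_right]
      rw [Submodule.starProjection_eq_self_iff.2 hvm]
    rw [e1, ← e2, inner_self_eq_norm_sq_to_K]
    norm_cast
  apply le_csSup hbdd
  by_cases h0 : ‖v‖ = 0
  · refine ⟨0, ?_, by simp, ?_⟩
    · have := isHarmonic_of_mem S 0 (harm S).zero_mem
      exact this
    · rw [h0]; simp
  · refine ⟨fun x => ((‖v‖⁻¹ : ℝ) : ℂ) * v x, ?_, ?_, ?_⟩
    · exact isHarmonic_of_mem S (((‖v‖⁻¹ : ℝ) : ℂ) • v) ((harm S).smul_mem _ hvm)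
    · have h1 := norm_sq_eq (((‖v‖⁻¹ : ℝ) : ℂ) • v)
      have h2 : ‖(((‖v‖⁻¹ : ℝ) : ℂ) • v)‖ = 1 := by
        rw [norm_smul, Complex.norm_real, norm_inv, norm_norm]
        exact inv_mul_cancel₀ h0
      rw [h2, one_pow] at h1
      exact h1.symm.le
    · simp only [norm_mul, Complex.norm_real, norm_inv, norm_norm]
      rw [hv1, Complex.norm_real]
      simp only [norm_pow, norm_norm]
      field_simp

end Pool.Agent.H919R3.L2
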