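import Pool.Agent.H919R3.L2.Trace

set_option autoImplicit false

open scoped InnerProductSpace InnerProduct ENNReal

namespace Pool.Agent.H919R3.L2

section
variable {H : Type} [Group H]

/-- The boundary of the `1`-chain `f` on the Cayley graph of `H` with respect to `S`; the
coordinate `(h, s)` belongs to the edge from `h` to `h s`. -/
noncomputable def bdry (S : Finset H) (f : H × S → ℂ) (h : H) : ℂ :=
  ∑ s : S, (f (h * (s : H)⁻¹, s) - f (h, s))

/-- The `ℓ²`-cycles of the Cayley graph. -/
noncomputable def cycles (S : Finset H) : Submodule ℂ (EE H S) where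
  carrier := {f | ∀ h, bdry S (fun x => f x) h = 0}
  add_mem' := by
    intro f g hf hg h
    have h1 := hf h
    have h2 := hg h
    unfold bdry at h1 h2 ⊢
    rw [← add_zero (0 : ℂ)]
    nth_rewrite 2 [← h1]
    rw [← h2, ← Finset.sum_add_distrib]
    refine Finset.sum_congr rfl fun s _ => ?_
    simp only [lp.coeFn_add, Pi.add_apply]
    ring
  zero_mem' := by
    intro h
    simp [bdry]
  smul_mem' := by
    intro c f hf h
    have h1 := hf h
    unfold bdry at h1 ⊢
    rw [← mul_zero c, ← h1, Finset.mul_sum]
    refine Finset.sum_congr rfl fun s _ => ?_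
    simp only [lp.coeFn_smul, Pi.smul_apply, smul_eq_mul]
    ring

/-- The cycles with finite support. -/
noncomputable def finCycles (S : Finset H) : Submodule ℂ (EE H S) where
  carrier := {f | f ∈ cycles S ∧ (Function.support (fun x => f x)).Finite}
  add_mem' := by
    intro f g hf hg
    refine ⟨(cycles S).add_mem hf.1 hg.1, (hf.2.union hg.2).subset ?_⟩
    intro x hx
    simp only [Function.mem_support, lp.coeFn_add, Pi.add_apply, Set.mem_union] at hx ⊢
    by_contra hc
    push Not at hc
    exact hx (by rw [hc.1, hc.2, add_zero])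
  zero_mem' := ⟨(cycles S).zero_mem, by simp [Function.support]⟩
  smul_mem' := by
    intro c f hf
    refine ⟨(cycles S).smul_mem c hf.1, hf.2.subset ?_⟩
    intro x hx
    simp only [Function.mem_support, lp.coeFn_smul, Pi.smul_apply, smul_eq_mul] at hx ⊢
    intro h0
    exact hx (by rw [h0, mul_zero])

/-- The `ℓ²`-cycles orthogonal to the finite cycles. -/
noncomputable def harm (S : Finset H) : Submodule ℂ (EE H S) := cycles S ⊓ (finCycles S)ᗮ

end

end Pool.Agent.H919R3.L2
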